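import Pool.Agent.R635.AltThreeFinal

set_option autoImplicit false

/-!
Over every field of characteristic three there are continuum many solvable varieties of alternative
algebras, indexed by the sets `J` of natural numbers; the one with index `J` is finitely based
exactly when `J` is finite.
-/

namespace Pool.Agent.Results.MP_a43909_al.ContinuumAlternative

universe u

/-- The algebra `A` satisfies all identities in `T`: every element of `T` (a nonassociative
polynomial in the variables `x₀, x₁, …`) vanishes under every substitution of elements of `A`. -/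
def Satisfies (K : Type u) [Field K] (A : Type u) [NonUnitalNonAssocRing A] [Module K A]
    [IsScalarTower K A A] [SMulCommClass K A A]
    (T : Set (FreeNonUnitalNonAssocAlgebra K ℕ)) : Prop :=
  ∀ f ∈ T, ∀ a : ℕ → A, FreeNonUnitalNonAssocAlgebra.lift K a f = 0

/-- The derived series of an algebra: `A` itself, then the span of all products of two elements of
the previous term. -/
def derivedPower (K : Type u) [Field K] (A : Type u) [NonUnitalNonAssocRing A] [Module K A] :
    ℕ → Submodule K A
  | 0 => ⊤
  | k + 1 => Submodule.span K
      {z : A | ∃ x ∈ derivedPower K A k, ∃ y ∈ derivedPower K A k, z = x * y}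

theorem derivedPower_eq (K : Type u) [Field K] (A : Type u) [NonUnitalNonAssocRing A] [Module K A]
    (k : ℕ) : derivedPower K A k = Pool.Agent.R635.AltThree.derivedPower K A k := by
  induction k with
  | zero => rfl
  | succ k ih => unfold derivedPower Pool.Agent.R635.AltThree.derivedPower; rw [ih]

open Pool.Agent.R635.AltThree (base laws law Alg mu)

theorem laws_finite (K : Type u) [Field K] {J : Set ℕ} (hJ : J.Finite) :
    (base K ∪ laws K J).Finite := by
  apply Set.Finite.union
  · unfold base
    exact Set.toFinite _
  · refine (hJ.image fun j => law K (4 * j + 1)).subset ?_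
    rintro f ⟨j, hj, rfl⟩
    exact ⟨j, hj, rfl⟩

/-- There is a field of characteristic three, and over every such field `K` every set `J` of natural
numbers has a set `V J` of identities such that: every algebra satisfying `V J` is alternative and
solvable (the fourth term of its derived series, counted from `A`, is zero); the variety of `V J` is
contained in that of `V J'` exactly when `J' ⊆ J`; and the variety of `V J` is defined by a finite
set of identities exactly when `J` is finite. -/
theorem result :
    (∃ (K : Type) (_ : Field K), CharP K 3) ∧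
    ∀ (K : Type u) [Field K] [CharP K 3],
      ∃ V : Set ℕ → Set (FreeNonUnitalNonAssocAlgebra K ℕ),
        (∀ (J : Set ℕ) (A : Type u) [NonUnitalNonAssocRing A] [Module K A] [IsScalarTower K A A]
          [SMulCommClass K A A], Satisfies K A (V J) →
            (∀ x y : A, (x * x) * y = x * (x * y)) ∧ (∀ x y : A, (y * x) * x = y * (x * x)) ∧
            derivedPower K A 3 = ⊥) ∧
        (∀ J J' : Set ℕ, (∀ (A : Type u) [NonUnitalNonAssocRing A] [Module K A]
          [IsScalarTower K A A] [SMulCommClass K A A],
            Satisfies K A (V J) → Satisfies K A (V J')) ↔ J' ⊆ J) ∧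
        (∀ J : Set ℕ, (∃ S : Set (FreeNonUnitalNonAssocAlgebra K ℕ), S.Finite ∧
          ∀ (A : Type u) [NonUnitalNonAssocRing A] [Module K A] [IsScalarTower K A A]
            [SMulCommClass K A A], Satisfies K A (V J) ↔ Satisfies K A S) ↔ J.Finite) := by
  refine ⟨⟨ZMod 3, inferInstance, inferInstance⟩, ?_⟩
  intro K _ _
  have h3 : (3 : K) = 0 := by
    have := CharP.cast_eq_zero K 3
    exact_mod_cast this
  refine ⟨fun J => base K ∪ laws K J, ?_, ?_, ?_⟩
  · intro J A _ _ _ _ h
    have hb : Pool.Agent.R635.AltThree.Satisfies K A (base K) := fun f hf => h f (Or.inl hf)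
    refine ⟨Pool.Agent.R635.AltThree.left_alt_of hb, Pool.Agent.R635.AltThree.right_alt_of hb, ?_⟩
    rw [derivedPower_eq]
    exact Pool.Agent.R635.AltThree.solvable_of hb
  · intro J J'
    constructor
    · intro h j hj
      by_contra hjJ
      have h1 : Satisfies K (Alg (⊤ : Submodule K (Fin (4 * j + 6) → K)) (mu K (4 * j + 6)))
          (base K ∪ laws K J) := by
        rintro f (hf | ⟨i, hi, rfl⟩) a
        · exact Pool.Agent.R635.AltThree.alg_base (Pool.Agent.R635.AltThree.good K h3 j) f hf a
        · apply Pool.Agent.R635.AltThree.alg_law_of_ne K h3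
          rintro rfl
          exact hjJ hi
      obtain ⟨a, ha⟩ := Pool.Agent.R635.AltThree.alg_law_ne K h3 j
      exact ha (h _ h1 _ (Or.inr ⟨j, hj, rfl⟩) a)
    · rintro h A _ _ _ _ hA f (hf | ⟨i, hi, rfl⟩) a
      · exact hA f (Or.inl hf) a
      · exact hA _ (Or.inr ⟨i, h hi, rfl⟩) a
  · intro J
    constructor
    · intro h
      by_contra hJ
      exact Pool.Agent.R635.AltThree.not_finite K h3 J hJ h
    · intro hJ
      exact ⟨base K ∪ laws K J, laws_finite K hJ, fun A _ _ _ _ => Iff.rfl⟩

end Pool.Agent.Results.MP_a43909_al.ContinuumAlternative
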