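import Pool.Agent.R635.ThreeDimFinal

set_option autoImplicit false

namespace Pool.Agent.Results.MP_a43909_al.JordanCharTwo

open Pool.Agent.R635.ThreeDim

universe u

/-- The derived series of a (not necessarily associative) algebra: `A` itself, then the span of
all products of two elements of the previous term. -/
def derivedPower (K : Type u) [Field K] (A : Type u) [NonUnitalNonAssocRing A] [Module K A] :
    ℕ → Submodule K A
  | 0 => ⊤
  | k + 1 => Submodule.span K
      {z : A | ∃ x ∈ derivedPower K A k, ∃ y ∈ derivedPower K A k, z = x * y}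

/-- The algebra `A` satisfies all identities in `T`. -/
def Satisfies (K : Type u) [Field K] (A : Type u) [NonUnitalNonAssocRing A] [Module K A]
    [IsScalarTower K A A] [SMulCommClass K A A]
    (T : Set (FreeNonUnitalNonAssocAlgebra K ℕ)) : Prop :=
  ∀ f ∈ T, IsIdentity K A f

section

variable {K : Type u} [Field K] {A : Type u} [NonUnitalNonAssocRing A] [Module K A]
  [IsScalarTower K A A] [SMulCommClass K A A]

open FreeNonUnitalNonAssocAlgebra in
theorem comm_of (h : Satisfies K A {f | IsIdentity K (Q3 K) f}) (x y : A) : x * y = y * x := by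
  have h1 : IsIdentity K (Q3 K) (of K 0 * of K 1 - of K 1 * of K 0) := by
    intro v
    rw [map_sub, map_mul, map_mul]
    rw [Q3.mul_comm']
    exact sub_self _
  have h2 := h _ h1 (fun i => if i = 0 then x else y)
  rw [map_sub, map_mul, map_mul, lift_of_apply, lift_of_apply] at h2
  simpa [sub_eq_zero] using h2

open FreeNonUnitalNonAssocAlgebra in
theorem jordan_of [CharP K 2] (h : Satisfies K A {f | IsIdentity K (Q3 K) f}) (x y : A) :
    ((x * x) * y) * x = (x * x) * (y * x) := by
  have two : (2 : K) = 0 := CharTwo.two_eq_zero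
  have h1 : IsIdentity K (Q3 K)
      (((of K 0 * of K 0) * of K 1) * of K 0 - (of K 0 * of K 0) * (of K 1 * of K 0)) := by
    intro v
    simp only [map_sub, map_mul, lift_of_apply]
    have e : (v 0 * v 0).px = 0 := by
      rw [Q3.px_mul]; linear_combination (v 0).pa * (v 0).px * two
    have e2 : (v 0 * v 0) * v 1 = 0 := by
      apply Q3.ext'
      · rfl
      · rw [Q3.px_mul, e, Q3.pa_mul, Q3.px_zero]; ring
      · rw [Q3.pz_mul, e, Q3.pz_zero]; ring
    have e3 : (v 0 * v 0) * (v 1 * v 0) = 0 := by
      apply Q3.ext'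
      · rfl
      · rw [Q3.px_mul, e, Q3.pa_mul, Q3.px_zero]; ring
      · rw [Q3.pz_mul, e, Q3.pz_zero]; ring
    rw [e2, e3, zero_mul, sub_zero]
  have h2 := h _ h1 (fun i => if i = 0 then x else y)
  simp only [map_sub, map_mul, lift_of_apply] at h2
  simpa [sub_eq_zero] using h2

open FreeNonUnitalNonAssocAlgebra in
theorem central_of (h : Satisfies K A {f | IsIdentity K (Q3 K) f}) (a b c d e : A) :
    ((a * b) * (c * d)) * e = 0 := by
  have h1 : IsIdentity K (Q3 K)
      (((of K 0 * of K 1) * (of K 2 * of K 3)) * of K 4) := by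
    intro v
    simp only [map_mul, lift_of_apply]
    apply Q3.ext'
    · rfl
    · simp
    · simp
  have h2 := h _ h1 (fun i => if i = 0 then a else if i = 1 then b else if i = 2 then c
    else if i = 3 then d else e)
  simpa [map_mul, lift_of_apply] using h2

theorem solvable_of (h : Satisfies K A {f | IsIdentity K (Q3 K) f}) :
    derivedPower K A 3 = ⊥ := by
  have step1 : ∀ x ∈ derivedPower K A 1, ∀ y ∈ derivedPower K A 1, ∀ e : A, (x * y) * e = 0 := by
    intro x hx y hy e
    induction hx using Submodule.span_induction with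
    | mem x hx =>
      obtain ⟨a, _, b, _, rfl⟩ := hx
      induction hy using Submodule.span_induction with
      | mem y hy =>
        obtain ⟨c, _, d, _, rfl⟩ := hy
        exact central_of h a b c d e
      | zero => rw [mul_zero, zero_mul]
      | add y z _ _ h1 h2 => rw [mul_add, add_mul, h1, h2, add_zero]
      | smul t y _ h1 => rw [mul_smul_comm, smul_mul_assoc, h1, smul_zero]
    | zero => rw [zero_mul, zero_mul]
    | add y z _ _ h1 h2 => rw [add_mul, add_mul, h1, h2, add_zero]
    | smul t y _ h1 => rw [smul_mul_assoc, smul_mul_assoc, h1, smul_zero]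
  have step2 : ∀ x ∈ derivedPower K A 2, ∀ e : A, x * e = 0 := by
    intro x hx e
    induction hx using Submodule.span_induction with
    | mem x hx =>
      obtain ⟨a, ha, b, hb, rfl⟩ := hx
      exact step1 a ha b hb e
    | zero => rw [zero_mul]
    | add y z _ _ h1 h2 => rw [add_mul, h1, h2, add_zero]
    | smul t y _ h1 => rw [smul_mul_assoc, h1, smul_zero]
  change Submodule.span K _ = ⊥
  rw [Submodule.span_eq_bot]
  rintro z ⟨x, hx, y, _, rfl⟩
  exact step2 x hx y

end

/-- Over every infinite field `K` of characteristic two there is a variety of solvable Jordan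
algebras (commutative, `(x²y)x = x²(yx)`, third derived power zero) that no finite set of
identities defines. -/
theorem result :
    (∃ (K : Type) (_ : Field K), Infinite K ∧ CharP K 2) ∧
    ∀ (K : Type u) [Field K] [Infinite K] [CharP K 2],
      ∃ T : Set (FreeNonUnitalNonAssocAlgebra K ℕ),
        (∀ (A : Type u) [NonUnitalNonAssocRing A] [Module K A] [IsScalarTower K A A]
          [SMulCommClass K A A], Satisfies K A T →
            (∀ x y : A, x * y = y * x) ∧ (∀ x y : A, ((x * x) * y) * x = (x * x) * (y * x)) ∧
            derivedPower K A 3 = ⊥) ∧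
        ¬ ∃ S : Set (FreeNonUnitalNonAssocAlgebra K ℕ), S.Finite ∧
          ∀ (A : Type u) [NonUnitalNonAssocRing A] [Module K A] [IsScalarTower K A A]
            [SMulCommClass K A A], Satisfies K A T ↔ Satisfies K A S := by
  refine ⟨⟨AlgebraicClosure (ZMod 2), inferInstance, IsAlgClosed.instInfinite, ?_⟩, ?_⟩
  · exact charP_of_injective_algebraMap
      (FaithfulSMul.algebraMap_injective (ZMod 2) (AlgebraicClosure (ZMod 2))) 2
  · intro K _ _ _
    refine ⟨{f | IsIdentity K (Q3 K) f}, ?_, ?_⟩
    · intro A _ _ _ _ h
      exact ⟨comm_of h, jordan_of h, solvable_of h⟩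
    · rintro ⟨S, hS, hSA⟩
      apply Pool.Agent.R635.ThreeDimFinal.not_finitelyBased K
      refine ⟨S, hS, (hSA (Q3 K)).1 (fun f hf => hf), ?_⟩
      intro f hf A _ _ _ _ hA
      exact (hSA A).2 hA f hf

end Pool.Agent.Results.MP_a43909_al.JordanCharTwo
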